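import Pool.Agent.W475.BG.Stm
import Pool.Agent.W878.BH.Win

set_option autoImplicit false

/-!
# Project BG, task WIN: one window

Part of the project of helper475 on the zeros of the backward heat flow of an L-function.
-/

namespace Pool.Agent.W195.BG

open Complex MeasureTheory Filter Topology
open Pool.Agent.W475.BH (nz PP Bx ell Vh Gk)
open Pool.Agent.W475.BG
open Pool.Agent.W878.BH (Vh_le_sq scale hlog hlogT logs pw band)

theorem dpos {D : Dat} (hD : Ok D) : (1 : ℝ) ≤ (D.d : ℝ) := by exact_mod_cast hD.hd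

/-- Change of the scale `log t0` against `log T`. -/
theorem scaled {d : ℕ} {κ : ℝ} (hd : (1 : ℝ) ≤ (d : ℝ)) (hκ : 0 < κ) {l L X : ℝ} (hl : 1 ≤ l)
    (hL : l ≤ L) (hL' : L ≤ l + 1) :
    |L ^ 2 * Vd d κ (l * X / L) - l ^ 2 * Vd d κ X| ≤ d * (5 / 2 * |X| * l) := by
  have hκ' : 0 < (d : ℝ) * κ := by positivity
  have h := scale hκ' hl hL hL' (X := X)
  have e : L ^ 2 * Vd d κ (l * X / L) - l ^ 2 * Vd d κ X =
      d * (L ^ 2 * Vh (d * κ) (l * X / L) - l ^ 2 * Vh (d * κ) X) := by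
    unfold Vd; ring
  rw [e, abs_mul, abs_of_nonneg (by positivity : (0 : ℝ) ≤ d)]
  exact mul_le_mul_of_nonneg_left h (by positivity)

theorem Vd_le_sq {d : ℕ} {κ : ℝ} (hd : (1 : ℝ) ≤ (d : ℝ)) (hκ : 0 < κ) (X : ℝ) :
    Vd d κ X ≤ X ^ 2 / (4 * κ) := by
  have hκ' : 0 < (d : ℝ) * κ := by positivity
  have hd0 : (0 : ℝ) < d := by linarith
  have h := Vh_le_sq hκ' X
  unfold Vd
  calc (d : ℝ) * Vh (d * κ) X ≤ d * (X ^ 2 / (4 * (d * κ))) :=
        mul_le_mul_of_nonneg_left h (by positivity)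
    _ = X ^ 2 / (4 * κ) := by field_simp

theorem nrm {k H l L : ℝ} (hl : 0 ≤ l) (hL : l ≤ L) {z : ℂ} (hk : 0 < k) (hH : 1 ≤ H)
    (h1 : |z.re| ≤ k + 4) (h2 : -4 ≤ z.im) (h3 : z.im ≤ H + 4) :
    ‖(l : ℂ) * z‖ ≤ (k + H + 8) * L := by
  rw [norm_mul, Complex.norm_real, Real.norm_eq_abs, abs_of_nonneg hl]
  have h4 : ‖z‖ ≤ k + H + 8 := by
    refine (Complex.norm_le_abs_re_add_abs_im z).trans ?_
    have : |z.im| ≤ H + 4 := abs_le.2 ⟨by linarith, h3⟩
    linarith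
  calc l * ‖z‖ ≤ l * (k + H + 8) := mul_le_mul_of_nonneg_left h4 hl
    _ ≤ L * (k + H + 8) := mul_le_mul_of_nonneg_right hL (by linarith)
    _ = (k + H + 8) * L := mul_comm _ _

theorem win_up {D : Dat} (hD : Ok D) (hU : S_UPP D) {κ δ H : ℝ} (hκ : 0 < κ) (hδ : 0 < δ)
    (hH : 1 ≤ H) : ∀ᶠ T : ℝ in atTop,
    ∀ t0 : ℝ, T ≤ t0 → t0 ≤ 2 * T → ∀ z : ℂ, |z.re| ≤ D.d * κ + 4 → -4 ≤ z.im → z.im ≤ H + 4 →
    ‖XK D κ (I * t0 + (Real.log T : ℂ) * z)‖ ≤
      ‖HH D (I * t0)‖ * Real.exp (Real.log T ^ 2 * (Vd D.d κ z.re + δ)) := by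
  have hd := dpos hD
  have hk : 0 < (D.d : ℝ) * κ := by positivity
  obtain ⟨C, T1, hC, hT1, hup⟩ := hU κ hκ (D.d * κ + H + 8) (by linarith)
  filter_upwards [hlog (D.d * (5 / 2 * (D.d * κ + 4)) + 2 * C) δ hδ, hlog 1 1 one_pos,
    eventually_ge_atTop T1, eventually_ge_atTop (1 : ℝ)] with T a1 a2 a3 a4 t0 b1 b2 z c1 c2 c3
  obtain ⟨d1, d2⟩ := logs a4 b1 b2
  set l := Real.log T with hl
  set L := Real.log t0 with hL
  have hl1 : 1 ≤ l := by linarith
  have h := hup t0 (by linarith) ((l : ℂ) * z) (nrm (by linarith) d1 hk hH c1 c2 c3)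
  refine h.trans (mul_le_mul_of_nonneg_left (Real.exp_le_exp.2 ?_) (norm_nonneg _))
  have e : ((l : ℂ) * z).re = l * z.re := by simp
  rw [e]
  have hs := (abs_le.1 (scaled hd hκ hl1 d1 d2 (X := z.re))).2
  have h5 : (D.d : ℝ) * (5 / 2 * |z.re| * l) ≤ D.d * (5 / 2 * (D.d * κ + 4)) * l := by
    rw [mul_assoc (D.d : ℝ)]
    exact mul_le_mul_of_nonneg_left
      (mul_le_mul_of_nonneg_right (by linarith) (by linarith)) (by linarith)
  have h6 : C * L ≤ 2 * C * l := by nlinarith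
  have h7 : (D.d * (5 / 2 * (D.d * κ + 4)) + 2 * C) * l ≤ δ * l * l :=
    mul_le_mul_of_nonneg_right a1 (by linarith)
  have h8 : (D.d * (5 / 2 * (D.d * κ + 4)) + 2 * C) * l =
    D.d * (5 / 2 * (D.d * κ + 4)) * l + 2 * C * l := by ring
  have h9 : l ^ 2 * (Vd D.d κ z.re + δ) = l ^ 2 * Vd D.d κ z.re + δ * l * l := by ring
  linarith

theorem win_far {D : Dat} (hD : Ok D) (hW : S_LOWD D) {κ δ H η : ℝ} (hκ : 0 < κ) (hδ : 0 < δ)
    (hH : 1 ≤ H) (hη : 0 < η) : ∀ᶠ T : ℝ in atTop,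
    ∀ t0 : ℝ, T ≤ t0 → t0 ≤ 2 * T → ∀ z : ℂ, D.d * κ + η ≤ |z.re| → |z.re| ≤ D.d * κ + 4 →
    -4 ≤ z.im → z.im ≤ H + 4 →
    ‖HH D (I * t0)‖ * Real.exp (Real.log T ^ 2 * (Vd D.d κ z.re - δ)) ≤
      ‖XK D κ (I * t0 + (Real.log T : ℂ) * z)‖ := by
  have hd := dpos hD
  have hk : 0 < (D.d : ℝ) * κ := by positivity
  obtain ⟨C, T1, hC, hT1, hlo⟩ := hW κ hκ (η / 2) (by positivity) (D.d * κ + H + 8) (by linarith)
  filter_upwards [hlog (D.d * (5 / 2 * (D.d * κ + 4)) + 2 * C) δ hδ,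
    hlog (D.d * κ + η / 2) (η / 2) (by positivity),
    hlog 1 1 one_pos, eventually_ge_atTop T1,
    eventually_ge_atTop (1 : ℝ)] with T a1 a5 a2 a3 a4 t0 b1 b2 z c1 c2 c3 c4
  obtain ⟨d1, d2⟩ := logs a4 b1 b2
  set l := Real.log T with hl
  set L := Real.log t0 with hL
  have hl1 : 1 ≤ l := by linarith
  have e : ((l : ℂ) * z).re = l * z.re := by simp
  have h := hlo t0 (by linarith) ((l : ℂ) * z)
    (nrm (by linarith) d1 hk hH c2 c3 c4) (by
      rw [e, abs_mul, abs_of_nonneg (by linarith : 0 ≤ l)]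
      have h1 : (D.d * κ + η / 2) * L ≤ (D.d * κ + η / 2) * (l + 1) :=
        mul_le_mul_of_nonneg_left d2 (by positivity)
      have h2 : (D.d * κ + η) * l ≤ l * |z.re| := by
        rw [mul_comm l]
        exact mul_le_mul_of_nonneg_right c1 (by linarith)
      nlinarith)
  refine le_trans (mul_le_mul_of_nonneg_left (Real.exp_le_exp.2 ?_) (norm_nonneg _)) h
  rw [e]
  have hs := (abs_le.1 (scaled hd hκ hl1 d1 d2 (X := z.re))).1
  have h5 : (D.d : ℝ) * (5 / 2 * |z.re| * l) ≤ D.d * (5 / 2 * (D.d * κ + 4)) * l := by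
    rw [mul_assoc (D.d : ℝ)]
    exact mul_le_mul_of_nonneg_left
      (mul_le_mul_of_nonneg_right (by linarith) (by linarith)) (by linarith)
  have h6 : C * L ≤ 2 * C * l := by nlinarith
  have h7 : (D.d * (5 / 2 * (D.d * κ + 4)) + 2 * C) * l ≤ δ * l * l :=
    mul_le_mul_of_nonneg_right a1 (by linarith)
  have h8 : (D.d * (5 / 2 * (D.d * κ + 4)) + 2 * C) * l =
    D.d * (5 / 2 * (D.d * κ + 4)) * l + 2 * C * l := by ring
  have h9 : l ^ 2 * (Vd D.d κ z.re - δ) = l ^ 2 * Vd D.d κ z.re - δ * l * l := by ring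
  linarith

theorem win_near {D : Dat} (hD : Ok D) (hS : S_STIR D) (hL : S_LOWS D) {κ δ ω β : ℝ} (hκ : 0 < κ)
    (hδ : 0 < δ)
    (hω0 : 0 < ω) (hω : ω ≤ δ / 4) (hω1 : ω ≤ 1) (hβ : β < 1 / 2) : ∀ᶠ T : ℝ in atTop,
    ∀ t0 : ℝ, T ≤ t0 → t0 ≤ 2 * T → ∀ z : ℂ, -2 ≤ z.im → z.im ≤ 3 → ∀ a b : ℝ, 0 < a → b ≤ β →
    (∀ y : ℝ, κ - 2 * κ * b ≤ y → y ≤ κ - 2 * κ * a → |y - (z.re - (D.d - 1) * κ)| ≤ 3 / 8 * δ) →
    ∀ t lam : ℝ,
    t0 + Real.log T * z.im ≤ t → t ≤ t0 + Real.log T * z.im + ω * Real.log T →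
    a * Real.log T ≤ lam → lam ≤ b * Real.log T → T ^ (-(1 / 3) : ℝ) < ‖SS D κ lam t‖ →
    ∃ w : ℂ, ‖w - z‖ ≤ δ ∧ ‖HH D (I * t0)‖ * Real.exp (Real.log T ^ 2 * (Vd D.d κ w.re - δ)) ≤
      ‖XK D κ (I * t0 + (Real.log T : ℂ) * w)‖ := by
  have hd := dpos hD
  obtain ⟨K, T1, hK, hT1, hst⟩ := hS
  obtain ⟨T2, hT2, hlo⟩ := hL κ hκ
  set q := |Real.log D.Q| with hq
  have hq0 : 0 ≤ q := abs_nonneg _
  filter_upwards [hlog (1 + 4 * K) δ hδ,
    hlog (κ * (3 * D.d + 2 * q + 2 * K)) (δ / 8) (by positivity),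
    hlog (3 / 2 + q + K) (1 / 2 - β) (by linarith), hlog 12 1 one_pos, hlogT,
    eventually_ge_atTop (2 * T1), eventually_ge_atTop (2 * T2), eventually_ge_atTop (2 : ℝ)]
    with T a1 a2 a3 a4 a5 a6 a7 a8 t0 b1 b2 z c1 c2 a b ha hb hJ t lam d1 d2 d3 d4 hSS
  set l := Real.log T with hl
  have hl12 : 12 ≤ l := by linarith
  have hl0 : 0 < l := by linarith
  have g1 : -(2 * l) ≤ l * z.im := by nlinarith
  have g2 : l * z.im ≤ 3 * l := by nlinarith
  have g3 : ω * l ≤ l := by nlinarith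
  have t1 : T / 2 ≤ t := by linarith
  have t2 : t ≤ 3 * T := by linarith
  have t3 : 1 ≤ t := by linarith
  obtain ⟨s1, s2, s3, s4, s5, s6⟩ := hst t (by linarith)
  -- logarithms
  have hpi := Real.pi_gt_three
  have hpi4 := Real.pi_lt_d2
  have q1 : Real.log (t / (2 * Real.pi)) ≤ l := by
    apply Real.log_le_log (by positivity)
    rw [div_le_iff₀ (by positivity)]
    nlinarith
  have q2 : l - 3 ≤ Real.log (t / (2 * Real.pi)) := by
    rw [Real.le_log_iff_exp_le (by positivity), Real.exp_sub, hl, Real.exp_log (by linarith),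
      div_le_div_iff₀ (Real.exp_pos _) (by positivity)]
    have e3 : (16 : ℝ) ≤ Real.exp 3 := by
      have : Real.exp 3 = Real.exp 1 ^ 3 := by rw [← Real.exp_nat_mul]; norm_num
      rw [this]
      have h := Real.exp_one_gt_d9
      have h' : (2.7 : ℝ) ≤ Real.exp 1 := by linarith
      calc (16 : ℝ) ≤ 2.7 ^ 3 := by norm_num
        _ ≤ Real.exp 1 ^ 3 := pow_le_pow_left₀ (by norm_num) h' 3
    have : T * (2 * Real.pi) ≤ T * 8 := mul_le_mul_of_nonneg_left (by linarith) (by linarith)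
    have : t * 16 ≤ t * Real.exp 3 := mul_le_mul_of_nonneg_left e3 (by linarith)
    linarith
  have q2' : l - 1 ≤ Real.log t := by
    have h : Real.log (T / 2) ≤ Real.log t := Real.log_le_log (by linarith) t1
    rw [Real.log_div (by linarith) (by norm_num)] at h
    have := Real.log_two_lt_d9
    linarith
  have q3 : |(be D t).re - ((D.d : ℝ) * Real.log (t / (2 * Real.pi)) / 2 + Real.log D.Q)| ≤ K := by
    have h := (Complex.abs_re_le_norm _).trans s2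
    have hk : K / t ≤ K := div_le_self (by linarith) t3
    refine le_trans (le_of_eq ?_) (h.trans hk)
    congr 1
    rw [Complex.sub_re, Complex.add_re, Complex.ofReal_re, Complex.I_mul_re, Complex.ofReal_im]
    ring
  obtain ⟨q4, q5⟩ := abs_le.1 q3
  obtain ⟨q6, q7⟩ := abs_le.1 (le_refl |Real.log D.Q|)
  rw [← hq] at q6 q7
  have q8 : (D.d : ℝ) * Real.log (t / (2 * Real.pi)) ≤ D.d * l :=
    mul_le_mul_of_nonneg_left q1 (by linarith)
  have q9 : (D.d : ℝ) * (l - 3) ≤ D.d * Real.log (t / (2 * Real.pi)) :=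
    mul_le_mul_of_nonneg_left q2 (by linarith)
  have q10 : 1 * (l - 3) ≤ (D.d : ℝ) * (l - 3) :=
    mul_le_mul_of_nonneg_right hd (by linarith)
  set B := (be D t).re with hB
  have hbl : b * l ≤ β * l := mul_le_mul_of_nonneg_right hb hl0.le
  have hexp : (1 / 2 - β) * l = l / 2 - β * l := by ring
  rw [hexp] at a3
  have hlamB : lam ≤ B := by
    linarith
  have hlamt : lam ≤ Real.log t / 2 := by
    linarith
  have hlam0 : 0 ≤ lam := by
    have : 0 < a * l := by positivity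
    linarith
  set θ := 2 * κ * (B - lam) with hθ
  have hθ0 : 0 ≤ θ := by
    have : 0 ≤ B - lam := by linarith
    positivity
  have hθ1 : θ ≤ 2 * κ * B := by
    rw [hθ]
    exact mul_le_mul_of_nonneg_left (by linarith) (by positivity)
  have eθ : B - θ / (2 * κ) = lam := by rw [hθ]; field_simp; ring
  have hLL := hlo t (by linarith) θ hθ0 hθ1 (by rw [← hB, eθ]; exact hlamt)
  rw [← hB, eθ] at hLL
  refine ⟨((θ / l : ℝ) : ℂ) + I * (((t - t0) / l : ℝ) : ℂ), ?_, ?_⟩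
  · refine (Complex.norm_le_abs_re_add_abs_im _).trans ?_
    have er : (((θ / l : ℝ) : ℂ) + I * (((t - t0) / l : ℝ) : ℂ) - z).re = θ / l - z.re := by
      rw [Complex.sub_re, Complex.add_re, Complex.ofReal_re, Complex.I_mul_re, Complex.ofReal_im]
      ring
    have ei : (((θ / l : ℝ) : ℂ) + I * (((t - t0) / l : ℝ) : ℂ) - z).im = (t - t0) / l - z.im := by
      rw [Complex.sub_im, Complex.add_im, Complex.ofReal_im, Complex.I_mul_im, Complex.ofReal_re]
      ring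
    rw [er, ei]
    have r1 : |(t - t0) / l - z.im| ≤ δ / 4 := by
      rw [abs_le]
      constructor
      · have : z.im ≤ (t - t0) / l := by rw [le_div_iff₀ hl0]; linarith
        linarith
      · have : (t - t0) / l ≤ z.im + ω := by rw [div_le_iff₀ hl0]; linarith
        linarith
    have r2 : |(κ - 2 * κ * (lam / l)) - (z.re - (D.d - 1) * κ)| ≤ 3 / 8 * δ := by
      apply hJ
      · have : lam / l ≤ b := by rw [div_le_iff₀ hl0]; exact d4
        have : 2 * κ * (lam / l) ≤ 2 * κ * b := mul_le_mul_of_nonneg_left this (by positivity)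
        linarith
      · have : a ≤ lam / l := by rw [le_div_iff₀ hl0]; exact d3
        have : 2 * κ * a ≤ 2 * κ * (lam / l) := mul_le_mul_of_nonneg_left this (by positivity)
        linarith
    have r3 : |θ / l - (D.d * κ - 2 * κ * (lam / l))| ≤ δ / 8 := by
      have e : θ / l - (D.d * κ - 2 * κ * (lam / l)) = κ * (2 * B - D.d * l) / l := by
        rw [hθ]; field_simp; ring
      rw [e, abs_div, abs_of_pos hl0, div_le_iff₀ hl0, abs_mul, abs_of_pos hκ]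
      have : |2 * B - D.d * l| ≤ 3 * D.d + 2 * q + 2 * K := by
        refine abs_le.2 ⟨by linarith, by linarith⟩
      calc κ * |2 * B - D.d * l| ≤ κ * (3 * D.d + 2 * q + 2 * K) :=
            mul_le_mul_of_nonneg_left this hκ.le
        _ ≤ δ / 8 * l := a2
    have r4 := abs_sub_le (θ / l) (D.d * κ - 2 * κ * (lam / l)) z.re
    have r5 : (D.d * κ - 2 * κ * (lam / l)) - z.re =
      (κ - 2 * κ * (lam / l)) - (z.re - (D.d - 1) * κ) := by ring
    rw [r5] at r4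
    linarith
  · have ew : (((θ / l : ℝ) : ℂ) + I * (((t - t0) / l : ℝ) : ℂ)).re = θ / l := by
      rw [Complex.add_re, Complex.ofReal_re, Complex.I_mul_re, Complex.ofReal_im]
      ring
    have hlc : (l : ℂ) ≠ 0 := by exact_mod_cast hl0.ne'
    have ez : I * (t0 : ℂ) + (l : ℂ) * (((θ / l : ℝ) : ℂ) + I * (((t - t0) / l : ℝ) : ℂ)) =
        I * t + (θ : ℂ) := by
      push_cast
      field_simp
      ring
    rw [ew, ez]
    obtain ⟨-, -, -, -, -, u6⟩ := hst t0 (by linarith)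
    have hh : |t - t0| ≤ 4 * l := abs_le.2 ⟨by linarith, by linarith⟩
    have u7 := (u6 (t - t0) (by linarith)).1
    rw [add_sub_cancel] at u7
    have u8 : ‖HH D (I * t0)‖ ≤ ‖HH D (I * t)‖ * Real.exp (4 * K * l) := by
      refine u7.trans (mul_le_mul_of_nonneg_left (Real.exp_le_exp.2 ?_) (norm_nonneg _))
      nlinarith
    have hp := pw (T := T) (t := t) (by linarith) (by linarith) t1
    rw [← hl] at hp
    have hqq : Real.exp (-l) ≤ ‖SS D κ lam t‖ - t ^ (-(1 / 2) : ℝ) := by linarith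
    have hV : l ^ 2 * (Vd D.d κ (θ / l) - δ) ≤ θ ^ 2 / (4 * κ) - l - 4 * K * l := by
      have v1 := Vd_le_sq hd hκ (θ / l)
      have v2 : l ^ 2 * Vd D.d κ (θ / l) ≤ l ^ 2 * ((θ / l) ^ 2 / (4 * κ)) :=
        mul_le_mul_of_nonneg_left v1 (sq_nonneg l)
      have v3 : l ^ 2 * ((θ / l) ^ 2 / (4 * κ)) = θ ^ 2 / (4 * κ) := by field_simp
      have v4 : (1 + 4 * K) * l ≤ δ * l * l := mul_le_mul_of_nonneg_right a1 hl0.le
      nlinarith
    calc ‖HH D (I * t0)‖ * Real.exp (l ^ 2 * (Vd D.d κ (θ / l) - δ))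
        ≤ (‖HH D (I * t)‖ * Real.exp (4 * K * l)) *
          Real.exp (θ ^ 2 / (4 * κ) - l - 4 * K * l) :=
          mul_le_mul u8 (Real.exp_le_exp.2 hV) (Real.exp_pos _).le (by positivity)
      _ = ‖HH D (I * t)‖ * (Real.exp (4 * K * l) * Real.exp (θ ^ 2 / (4 * κ) - l - 4 * K * l)) :=
          mul_assoc _ _ _
      _ = ‖HH D (I * t)‖ * (Real.exp (θ ^ 2 / (4 * κ)) * Real.exp (-l)) := by
          rw [← Real.exp_add, ← Real.exp_add]
          congr 2
          ring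
      _ = ‖HH D (I * t)‖ * Real.exp (θ ^ 2 / (4 * κ)) * Real.exp (-l) := (mul_assoc _ _ _).symm
      _ ≤ ‖HH D (I * t)‖ * Real.exp (θ ^ 2 / (4 * κ)) * (‖SS D κ lam t‖ - t ^ (-(1 / 2) : ℝ)) :=
          mul_le_mul_of_nonneg_left hqq (by positivity)
      _ ≤ _ := hLL

/-- **Task WIN.** -/
theorem win (D : Dat) (hD : Ok D) (_hY : S_SYM D) (hS : S_STIR D) (hU : S_UPP D) (hL : S_LOWS D)
    (hW : S_LOWD D) : S_WIN D := by
  intro κ δ H hκ hδ hH
  have hd := dpos hD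
  obtain ⟨N, hN⟩ : ∃ N : ℕ, κ / (N + 1) ≤ δ / 8 := by
    obtain ⟨N, hN⟩ := exists_nat_ge (κ / (δ / 8))
    refine ⟨N, ?_⟩
    rw [div_le_iff₀ (by positivity)] at hN ⊢
    nlinarith
  have hM : (0 : ℝ) < N + 1 := by positivity
  set ω : ℝ := min (δ / 4) 1 with hω
  have hω0 : 0 < ω := lt_min (by positivity) one_pos
  set β : ℝ := 1 / 2 - 1 / (8 * (N + 1)) with hβ
  have hβ2 : β < 1 / 2 := by
    have : 0 < 1 / (8 * ((N : ℝ) + 1)) := by positivity
    linarith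
  obtain ⟨T0, hT0⟩ := eventually_atTop.1 (((win_up hD hU hκ hδ hH).and
    ((win_far hD hW hκ hδ hH (show (0 : ℝ) < 1 / 4 by norm_num)).and
      (win_far hD hW hκ hδ hH (show (0 : ℝ) < δ / 4 by positivity)))).and
    (win_near hD hS hL hκ hδ hω0 (min_le_left _ _) (min_le_right _ _) hβ2))
  refine ⟨N + 1, fun i => ((i : ℝ) + 1 / 4) / (2 * (N + 1)),
    fun i => ((i : ℝ) + 3 / 4) / (2 * (N + 1)), ω, max T0 2, hω0, le_max_right _ _, ?_, ?_⟩
  · intro i
    have hi : ((i : ℕ) : ℝ) + 1 ≤ (N : ℝ) + 1 := by exact_mod_cast i.2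
    refine ⟨by positivity, ?_, ?_⟩
    · exact div_lt_div_of_pos_right (by linarith) (by positivity)
    · rw [div_lt_div_iff₀ (by positivity) (by norm_num)]
      linarith
  · intro T t0 hT b1 b2
    obtain ⟨⟨hA, hB1, hB2⟩, hC⟩ := hT0 T (le_trans (le_max_left _ _) hT)
    refine ⟨hA t0 b1 b2, hB1 t0 b1 b2, fun hgood => ?_⟩
    intro z z0 z1 z2 z3
    have hk : 0 ≤ ((D.d : ℝ) - 1) * κ := mul_nonneg (by linarith) hκ.le
    have hz0 : 0 ≤ z.re := by linarith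
    rcases le_or_gt ((D.d : ℝ) * κ + δ / 4) z.re with hz | hz
    · refine ⟨z, by simpa using hδ.le, hB2 t0 b1 b2 z ?_ ?_ ?_ ?_⟩
      · rw [abs_of_nonneg hz0]; exact hz
      · rw [abs_of_nonneg hz0]; linarith
      · linarith
      · linarith
    · obtain ⟨i, hi⟩ := band hκ hδ N hN (X := z.re - (D.d - 1) * κ) (by linarith)
        (by nlinarith)
      have hT2 : (2 : ℝ) ≤ T := le_trans (le_max_right _ _) hT
      have hl0 : 0 ≤ Real.log T := Real.log_nonneg (by linarith)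
      obtain ⟨t, lam, d1, d2, d3, d4, d5⟩ := hgood i (t0 + Real.log T * z.im)
        (by nlinarith) (by nlinarith)
      refine hC t0 b1 b2 z z2 z3 _ _ ?_ ?_ hi t lam d1 d2 d3 d4 d5
      · positivity
      · have hi' : ((i : ℕ) : ℝ) + 1 ≤ (N : ℝ) + 1 := by exact_mod_cast i.2
        rw [hβ, div_le_iff₀ (by positivity)]
        have : (1 / 2 - 1 / (8 * ((N : ℝ) + 1))) * (2 * (N + 1)) = (N + 1) - 1 / 4 := by
          field_simp
          ring
        rw [this]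
        linarith

end Pool.Agent.W195.BG
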